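import Mathlib
import Pool.Agent.MP_b41085_nt.Bounds

/-!
# Q1: the ratio `S (n+1) / S n` is strictly increasing with limit `27`
-/

open Filter Topology

namespace Pool.Agent.Results.MP_b41085_nt.RatioIncreasing

open Pool.Agent.MP_b41085_nt

/-- With `S n = ∑_{i+j ≤ n} (n! / (i! j! (n-i-j)!))^3`, the sequence `a n = S (n+1) / S n`
(`n ≥ 0`) is strictly increasing and converges to `27`. -/
theorem result :
    (∀ n : ℕ, (S (n + 1) : ℝ) / (S n : ℝ) < (S (n + 1 + 1) : ℝ) / (S (n + 1) : ℝ)) ∧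
      Tendsto (fun n : ℕ => (S (n + 1) : ℝ) / (S n : ℝ)) atTop (𝓝 27) :=
  ⟨fun n => logConvex n, tendsto_ratio⟩

end Pool.Agent.Results.MP_b41085_nt.RatioIncreasing
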