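import Mathlib
import Pool.Agent.MP_b41085_nt.Bounds

/-!
# Q2: the root ratio `S(n+1)^{1/(n+1)} / S(n)^{1/n}` is strictly decreasing with limit `1`
-/

open Filter Topology

namespace Pool.Agent.Results.MP_b41085_nt.RootRatioDecreasing

open Pool.Agent.MP_b41085_nt

theorem S_pos_real (k : ℕ) : (0 : ℝ) < (S k : ℝ) := by exact_mod_cast S_pos k

/-- logarithm of `S` -/
noncomputable def L (n : ℕ) : ℝ := Real.log (S n)

theorem L_concave (n : ℕ) :
    (L (n + 1) - L n) + (L (n + 3) - L (n + 2)) < 2 * (L (n + 2) - L (n + 1)) := by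
  have h := ratioLogConcave n
  have p1 : 0 < (S (n + 1) : ℝ) / S n := div_pos (S_pos_real _) (S_pos_real _)
  have p2 : 0 < (S (n + 3) : ℝ) / S (n + 2) := div_pos (S_pos_real _) (S_pos_real _)
  have p3 : 0 < (S (n + 2) : ℝ) / S (n + 1) := div_pos (S_pos_real _) (S_pos_real _)
  have h2 := Real.log_lt_log (mul_pos p1 p2) h
  rw [Real.log_mul p1.ne' p2.ne', Real.log_pow, Real.log_div (S_pos_real _).ne' (S_pos_real _).ne',
    Real.log_div (S_pos_real _).ne' (S_pos_real _).ne',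
    Real.log_div (S_pos_real _).ne' (S_pos_real _).ne'] at h2
  unfold L
  push_cast at h2
  exact h2

/-- the discrete quantity controlling monotonicity of the root ratio -/
noncomputable def Dn (n : ℕ) : ℝ :=
  ((n : ℝ) + 1) * (n + 2) * (L (n + 1) - L n) - n * (n + 1) * (L (n + 2) - L (n + 1)) -
    2 * L (n + 1)

theorem Dn_pos (n : ℕ) : 0 < Dn (n + 1) := by
  induction n with
  | zero =>
    obtain ⟨-, h1, h2, h3, -⟩ := S_vals
    have e : Dn (0 + 1) = 2 * (3 * L 2 - 3 * L 1 - L 3) := by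
      unfold Dn
      push_cast
      ring
    rw [e]
    unfold L
    rw [h1, h2, h3]
    have e2 : 3 * Real.log ((27 : ℕ) : ℝ) - 3 * Real.log ((3 : ℕ) : ℝ) -
        Real.log ((381 : ℕ) : ℝ) = Real.log (243 / 127) := by
      have e27 : Real.log ((27 : ℕ) : ℝ) = 3 * Real.log 3 := by
        rw [show ((27 : ℕ) : ℝ) = (3 : ℝ) ^ (3 : ℕ) by norm_num, Real.log_pow]
        push_cast; ring
      have e381 : Real.log ((381 : ℕ) : ℝ) = Real.log 3 + Real.log 127 := by
        rw [show ((381 : ℕ) : ℝ) = (3 : ℝ) * 127 by norm_num, Real.log_mul (by norm_num)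
          (by norm_num)]
      have e243 : Real.log (243 / 127 : ℝ) = 5 * Real.log 3 - Real.log 127 := by
        rw [Real.log_div (by norm_num) (by norm_num),
          show (243 : ℝ) = (3 : ℝ) ^ (5 : ℕ) by norm_num, Real.log_pow]
        push_cast; ring
      rw [e27, e381, e243]
      push_cast
      ring
    rw [e2]
    have : 0 < Real.log (243 / 127 : ℝ) := Real.log_pos (by norm_num)
    linarith
  | succ n ih =>
    have hc := L_concave (n + 1)
    have e : Dn (n + 1 + 1) = Dn (n + 1) + ((n : ℝ) + 2) * (n + 3) *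
        (2 * (L (n + 1 + 2) - L (n + 1 + 1)) - ((L (n + 1 + 1) - L (n + 1)) +
          (L (n + 1 + 3) - L (n + 1 + 2)))) := by
      unfold Dn
      push_cast
      ring
    rw [e]
    have h1 : 0 < 2 * (L (n + 1 + 2) - L (n + 1 + 1)) - ((L (n + 1 + 1) - L (n + 1)) +
          (L (n + 1 + 3) - L (n + 1 + 2))) := by linarith
    have h2 : 0 < ((n : ℝ) + 2) * (n + 3) := by positivity
    have := mul_pos h2 h1
    linarith

/-- the root ratio -/
noncomputable def b (n : ℕ) : ℝ :=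
  (S (n + 1) : ℝ) ^ (1 / ((n : ℝ) + 1)) / (S n : ℝ) ^ (1 / (n : ℝ))

theorem b_pos (n : ℕ) : 0 < b n :=
  div_pos (Real.rpow_pos_of_pos (S_pos_real _) _) (Real.rpow_pos_of_pos (S_pos_real _) _)

theorem log_b (n : ℕ) : Real.log (b n) = L (n + 1) / ((n : ℝ) + 1) - L n / (n : ℝ) := by
  unfold b L
  rw [Real.log_div (Real.rpow_pos_of_pos (S_pos_real _) _).ne'
    (Real.rpow_pos_of_pos (S_pos_real _) _).ne', Real.log_rpow (S_pos_real _),
    Real.log_rpow (S_pos_real _)]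
  ring

theorem b_lt (n : ℕ) (hn : 1 ≤ n) : b (n + 1) < b n := by
  rw [← Real.log_lt_log_iff (b_pos _) (b_pos _), log_b, log_b]
  obtain ⟨m, rfl⟩ : ∃ m, n = m + 1 := ⟨n - 1, by omega⟩
  have h := Dn_pos m
  have hm0 : (0 : ℝ) ≤ (m : ℝ) := Nat.cast_nonneg m
  have e : (L (m + 1 + 1) / (((m + 1 : ℕ) : ℝ) + 1) - L (m + 1) / ((m + 1 : ℕ) : ℝ)) -
      (L (m + 1 + 1 + 1) / (((m + 1 + 1 : ℕ) : ℝ) + 1) - L (m + 1 + 1) / ((m + 1 + 1 : ℕ) : ℝ)) =
      Dn (m + 1) / (((m : ℝ) + 1) * (m + 2) * (m + 3)) := by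
    unfold Dn
    push_cast
    have h1 : (m : ℝ) + 1 ≠ 0 := by positivity
    have h2 : (m : ℝ) + 2 ≠ 0 := by positivity
    have h3 : (m : ℝ) + 3 ≠ 0 := by positivity
    have h4 : (m : ℝ) + 1 + 1 ≠ 0 := by positivity
    have h5 : (m : ℝ) + 1 + 1 + 1 ≠ 0 := by positivity
    rw [show (m : ℝ) + 1 + 1 + 1 = m + 3 by ring, show (m : ℝ) + 1 + 1 = m + 2 by ring]
    field_simp
    ring
  have h6 : 0 < Dn (m + 1) / (((m : ℝ) + 1) * (m + 2) * (m + 3)) := by positivity
  linarith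

theorem tendsto_L_div : Tendsto (fun n : ℕ => L n / (n : ℝ)) atTop (𝓝 (Real.log 27)) := by
  have h1 : Tendsto (fun n : ℕ => Real.log ((S (n + 1) : ℝ) / S n)) atTop (𝓝 (Real.log 27)) :=
    (Real.continuousAt_log (by norm_num : (27 : ℝ) ≠ 0)).tendsto.comp tendsto_ratio
  have h2 := h1.cesaro
  apply h2.congr
  intro n
  have h3 : ∑ i ∈ Finset.range n, Real.log ((S (i + 1) : ℝ) / S i) = L n := by
    have : ∀ i ∈ Finset.range n, Real.log ((S (i + 1) : ℝ) / S i) = L (i + 1) - L i := by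
      intro i _
      rw [Real.log_div (S_pos_real _).ne' (S_pos_real _).ne']
      rfl
    rw [Finset.sum_congr rfl this, Finset.sum_range_sub]
    have h0 : L 0 = 0 := by
      unfold L
      rw [S_vals.1]
      simp
    rw [h0, sub_zero]
  rw [h3]
  ring

theorem tendsto_b : Tendsto b atTop (𝓝 1) := by
  have h1 := tendsto_L_div
  have h2 : Tendsto (fun n : ℕ => L (n + 1) / ((n : ℝ) + 1)) atTop (𝓝 (Real.log 27)) := by
    have := h1.comp (tendsto_add_atTop_nat 1)
    apply this.congr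
    intro n
    simp
  have h3 := h2.sub h1
  rw [sub_self] at h3
  have h4 : Tendsto (fun n : ℕ => Real.exp (Real.log (b n))) atTop (𝓝 (Real.exp 0)) := by
    apply (Real.continuous_exp.tendsto 0).comp
    apply h3.congr
    intro n
    rw [log_b]
  rw [Real.exp_zero] at h4
  apply h4.congr
  intro n
  exact Real.exp_log (b_pos n)

/-- With `S n = ∑_{i+j ≤ n} (n! / (i! j! (n-i-j)!))^3`, the sequence
`b n = S(n+1)^{1/(n+1)} / S(n)^{1/n}` (`n ≥ 1`) is strictly decreasing and converges to `1`. -/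
theorem result :
    (∀ n : ℕ, 1 ≤ n →
      (S (n + 2) : ℝ) ^ (1 / ((n : ℝ) + 2)) / (S (n + 1) : ℝ) ^ (1 / ((n : ℝ) + 1)) <
        (S (n + 1) : ℝ) ^ (1 / ((n : ℝ) + 1)) / (S n : ℝ) ^ (1 / (n : ℝ))) ∧
      Tendsto (fun n : ℕ => (S (n + 1) : ℝ) ^ (1 / ((n : ℝ) + 1)) / (S n : ℝ) ^ (1 / (n : ℝ)))
        atTop (𝓝 1) := by
  refine ⟨fun n hn => ?_, tendsto_b⟩
  have h := b_lt n hn
  unfold b at h
  push_cast at h
  rw [show (n : ℝ) + 1 + 1 = n + 2 by ring] at h
  exact h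

end Pool.Agent.Results.MP_b41085_nt.RootRatioDecreasing
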